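import Mathlib
import Pool.Agent.R508.BasExist

set_option autoImplicit false

/-! MP_6db48f_an: every gap label of the KNS measure of the basilica Schreier graphs is a dyadic
rational. Paper proof by helper243, formalisation by helper508. -/

open MeasureTheory Filter Topology

open scoped ENNReal

namespace Pool.Agent.Results.MP_6db48f_an.GapLabelsDyadic

mutual
/-- the generator `a`: `a(0w) = 0w`, `a(1w) = 1 b(w)` (`false = 0`, `true = 1`) -/
def a : List Bool → List Bool
  | [] => []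
  | false :: w => false :: w
  | true :: w => true :: b w
/-- the generator `b`: `b(0w) = 1w`, `b(1w) = 0 a(w)` -/
def b : List Bool → List Bool
  | [] => []
  | false :: w => true :: w
  | true :: w => false :: a w
end

/-- words of length `n` -/
abbrev V (n : ℕ) : Type := {w : List Bool // w.length = n}

instance (n : ℕ) : Fintype (V n) := inferInstanceAs (Fintype (List.Vector Bool n))

/-- `A_n(x,y)`, the number of `s ∈ {a, a⁻¹, b, b⁻¹}` with `s(x) = y`
(`a⁻¹(x) = y` means `a(y) = x`) -/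
def A (n : ℕ) (x y : V n) : ℕ :=
  (if a x.1 = y.1 then 1 else 0) + (if a y.1 = x.1 then 1 else 0) +
    (if b x.1 = y.1 then 1 else 0) + (if b y.1 = x.1 then 1 else 0)

/-- the Laplacian `I - A_n / 4` of `Γ_n` -/
noncomputable def Laplacian (n : ℕ) : Matrix (V n) (V n) ℝ :=
  1 - (1 / 4 : ℝ) • Matrix.of fun x y => (A n x y : ℝ)

/-- `ρ` is the spectral counting measure `ν_n` of `Γ_n`: the average of the unit point masses at
the eigenvalues (with multiplicity) of the (Hermitian) Laplacian -/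
def IsCounting (n : ℕ) (ρ : ProbabilityMeasure ℝ) : Prop :=
  ∃ h : (Laplacian n).IsHermitian,
    (ρ : Measure ℝ) = ((2 : ℝ≥0∞) ^ n)⁻¹ • ∑ i, Measure.dirac (h.eigenvalues i)

/-- `μ` is the KNS measure: the weak limit of the spectral counting measures -/
def IsKNS (μ : ProbabilityMeasure ℝ) : Prop :=
  ∃ ν : ℕ → ProbabilityMeasure ℝ, (∀ n, IsCounting n (ν n)) ∧ Tendsto ν atTop (𝓝 μ)

/-- the closed support of `μ` -/
def supp (μ : ProbabilityMeasure ℝ) : Set ℝ := {x | ∀ U ∈ 𝓝 x, 0 < (μ : Measure ℝ) U}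

/-- `U` is a gap: a bounded connected component of the complement of the support -/
def IsGap (μ : ProbabilityMeasure ℝ) (U : Set ℝ) : Prop :=
  Bornology.IsBounded U ∧ ∃ x ∈ (supp μ)ᶜ, U = connectedComponentIn (supp μ)ᶜ x

theorem ab_eq (w : List Bool) :
    a w = Pool.Agent.R508.Bas.ba w ∧ b w = Pool.Agent.R508.Bas.bb w := by
  induction w with
  | nil => simp [a, b, Pool.Agent.R508.Bas.ba_nil, Pool.Agent.R508.Bas.bb_nil]
  | cons x w ih =>
    cases x
    · simp [a, b, Pool.Agent.R508.Bas.ba_f, Pool.Agent.R508.Bas.bb_f]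
    · simp [a, b, Pool.Agent.R508.Bas.ba_t, Pool.Agent.R508.Bas.bb_t, ih.1, ih.2]

open Pool.Agent.R508.Bas in
theorem Lap_eq (n : ℕ) : Laplacian n = Del n := by
  ext x y
  have e : ∀ p : Prop, ∀ [Decidable p], ind p = if p then 1 else 0 := by
    intro p _
    by_cases h : p
    · rw [ind_true h, if_pos h]
    · rw [ind_false h, if_neg h]
  have e1 : ∀ u v : V n, (aV n u = v) ↔ (a u.1 = v.1) := by
    intro u v
    rw [(ab_eq u.1).1]
    exact ⟨fun h => congrArg Subtype.val h, fun h => Subtype.ext h⟩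
  have e2 : ∀ u v : V n, (bV n u = v) ↔ (b u.1 = v.1) := by
    intro u v
    rw [(ab_eq u.1).2]
    exact ⟨fun h => congrArg Subtype.val h, fun h => Subtype.ext h⟩
  have h1 : Laplacian n x y = (if x = y then 1 else 0) - 1 / 4 * ((A n x y : ℕ) : ℝ) := by
    simp [Laplacian, Matrix.one_apply]
  have h2 : Del n x y = ind (x = y) - (1 / 4) *
    (PM (aV n) x y + PM (aV n) y x + PM (bV n) x y + PM (bV n) y x) := rfl
  have h3 : PM (aV n) x y = if a x.1 = y.1 then 1 else 0 :=
    (ind_congr (e1 x y)).trans (e _)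
  have h4 : PM (aV n) y x = if a y.1 = x.1 then 1 else 0 :=
    (ind_congr (e1 y x)).trans (e _)
  have h5 : PM (bV n) x y = if b x.1 = y.1 then 1 else 0 :=
    (ind_congr (e2 x y)).trans (e _)
  have h6 : PM (bV n) y x = if b y.1 = x.1 then 1 else 0 :=
    (ind_congr (e2 y x)).trans (e _)
  rw [h1, h2, h3, h4, h5, h6]
  refine congrArg₂ (· - ·) (e _).symm ?_
  unfold A
  push_cast
  rfl

open Pool.Agent.R508.Bas in
theorem counting_iff (n : ℕ) (ρ : ProbabilityMeasure ℝ) : IsCounting n ρ ↔ ρ = nu n := by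
  have hL := Lap_eq n
  constructor
  · rintro ⟨h, hρ⟩
    apply Subtype.ext
    refine hρ.trans ?_
    have key : ∀ (M : Matrix (V n) (V n) ℝ) (h : M.IsHermitian), M = Del n →
        ((2 : ℝ≥0∞) ^ n)⁻¹ • ∑ i, Measure.dirac (h.eigenvalues i) = nuM n := by
      intro M h e
      subst e
      rfl
    exact key _ h hL
  · rintro rfl
    have key : ∀ (M : Matrix (V n) (V n) ℝ), M = Del n → ∃ h : M.IsHermitian,
        nuM n = ((2 : ℝ≥0∞) ^ n)⁻¹ • ∑ i, Measure.dirac (h.eigenvalues i) := by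
      intro M e
      subst e
      exact ⟨herm n, rfl⟩
    exact key _ hL

open Pool.Agent.R508.Bas in
theorem kns_iff (μ : ProbabilityMeasure ℝ) : IsKNS μ ↔ Tendsto nu atTop (𝓝 μ) := by
  constructor
  · rintro ⟨ν, h1, h2⟩
    have : ν = nu := by
      funext n
      exact (counting_iff n _).1 (h1 n)
    rwa [this] at h2
  · intro h
    exact ⟨nu, fun n => (counting_iff n _).2 rfl, h⟩

/-- the KNS measure exists and is unique, and on the complement of its support (in particular on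
every gap) its distribution function takes only dyadic rational values -/
theorem result : (∃! μ : ProbabilityMeasure ℝ, IsKNS μ) ∧
    (∀ μ : ProbabilityMeasure ℝ, IsKNS μ → ∀ U : Set ℝ, IsGap μ U → ∀ x ∈ U,
      ∃ (j : ℤ) (k : ℕ), ((μ : Measure ℝ) (Set.Iic x)).toReal = j / 2 ^ k) ∧
    (∀ μ : ProbabilityMeasure ℝ, IsKNS μ → ∀ x ∉ supp μ,
      ∃ (j : ℤ) (k : ℕ), ((μ : Measure ℝ) (Set.Iic x)).toReal = j / 2 ^ k) := by
  have main : ∀ μ : ProbabilityMeasure ℝ, IsKNS μ → ∀ x ∉ supp μ,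
      ∃ (j : ℤ) (k : ℕ), ((μ : Measure ℝ) (Set.Iic x)).toReal = j / 2 ^ k := by
    intro μ hμ x hx
    refine Pool.Agent.R508.Bas.dyadic μ ((kns_iff μ).1 hμ) x ?_
    simp only [supp, Set.mem_ofPred_eq, not_forall] at hx
    obtain ⟨U, hU, h0⟩ := hx
    exact ⟨U, hU, by simpa using h0⟩
  refine ⟨?_, ?_, main⟩
  · obtain ⟨μ, hμ⟩ := Pool.Agent.R508.Bas.exists_kns
    refine ⟨μ, (kns_iff μ).2 hμ, fun μ' hμ' => ?_⟩
    exact tendsto_nhds_unique ((kns_iff μ').1 hμ') hμ
  · rintro μ hμ U ⟨_, x0, _, rfl⟩ x hx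
    exact main μ hμ x (connectedComponentIn_subset _ _ hx)

end Pool.Agent.Results.MP_6db48f_an.GapLabelsDyadic
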